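import Mathlib
set_option autoImplicit false

/-!
# Averaging over the translates of the hexagonal lattice
-/

namespace Pool.Agent.Hex

open MeasureTheory Set
open scoped ENNReal

/-- the unit square cell at `z` -/
def cell (z : ℤ × ℤ) : Set (ℝ × ℝ) :=
  Ico (z.1 : ℝ) (z.1 + 1) ×ˢ Ico (z.2 : ℝ) (z.2 + 1)

/-- integer point as a real vector -/
def rv (z : ℤ × ℤ) : ℝ × ℝ := ((z.1 : ℝ), (z.2 : ℝ))

theorem cell_meas (z : ℤ × ℤ) : MeasurableSet (cell z) := measurableSet_Ico.prod measurableSet_Ico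

theorem mem_cell_floor (x : ℝ × ℝ) : x ∈ cell (⌊x.1⌋, ⌊x.2⌋) :=
  ⟨⟨Int.floor_le _, Int.lt_floor_add_one _⟩, ⟨Int.floor_le _, Int.lt_floor_add_one _⟩⟩

/-- some translate of `ℤ²` meets `V` in at least `vol V` points -/
theorem exists_translate {V : Set (ℝ × ℝ)} (hV : MeasurableSet V) (hb : Bornology.IsBounded V) :
    ∃ (t : ℝ × ℝ) (B : Finset (ℤ × ℤ)), (∀ z ∈ B, t + rv z ∈ V) ∧
      volume V ≤ (B.card : ℝ≥0∞) := by
  classical
  obtain ⟨M, hM⟩ := hb.exists_norm_le
  obtain ⟨Q, hQ⟩ : ∃ Q : Finset (ℤ × ℤ), ∀ z, z ∈ Q ↔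
      z ∈ Finset.Icc ⌊-M⌋ ⌊M⌋ ×ˢ Finset.Icc ⌊-M⌋ ⌊M⌋ := ⟨_, fun _ => Iff.rfl⟩
  have hcover : V ⊆ ⋃ z ∈ Q, V ∩ cell z := by
    intro x hx
    have h := hM x hx
    have h1 : |x.1| ≤ M := (norm_fst_le x).trans h
    have h2 : |x.2| ≤ M := (norm_snd_le x).trans h
    rw [abs_le] at h1 h2
    refine mem_iUnion₂.mpr ⟨(⌊x.1⌋, ⌊x.2⌋), ?_, hx, mem_cell_floor x⟩
    rw [hQ, Finset.mem_product, Finset.mem_Icc, Finset.mem_Icc]
    exact ⟨⟨Int.floor_le_floor h1.1, Int.floor_le_floor h1.2⟩,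
      ⟨Int.floor_le_floor h2.1, Int.floor_le_floor h2.2⟩⟩
  let f : ℤ × ℤ → ℝ × ℝ → ℝ≥0∞ := fun z t => V.indicator 1 (t + rv z)
  have hfm : ∀ z, Measurable (f z) := fun z =>
    (measurable_one.indicator hV).comp (measurable_add_const (rv z))
  have hfint : ∀ z, ∫⁻ t in cell 0, f z t = volume (V ∩ cell z) := by
    intro z
    have h1 : volume (V ∩ cell z) = volume ((fun t => t + rv z) ⁻¹' (V ∩ cell z)) :=
      (measure_preimage_add_right volume (rv z) _).symm
    rw [h1, ← lintegral_indicator (cell_meas 0), ← lintegral_indicator_one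
      ((hV.inter (cell_meas z)).preimage (measurable_add_const (rv z)))]
    refine lintegral_congr fun t => ?_
    have hc : t ∈ cell 0 ↔ t + rv z ∈ cell z := by
      simp only [cell, rv, mem_prod, mem_Ico, Prod.fst_zero, Prod.snd_zero, Int.cast_zero,
        zero_add, Prod.fst_add, Prod.snd_add]
      constructor
      · rintro ⟨⟨h1, h2⟩, ⟨h3, h4⟩⟩
        exact ⟨⟨by linarith, by linarith⟩, ⟨by linarith, by linarith⟩⟩
      · rintro ⟨⟨h1, h2⟩, ⟨h3, h4⟩⟩
        exact ⟨⟨by linarith, by linarith⟩, ⟨by linarith, by linarith⟩⟩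
    by_cases h0 : t ∈ cell 0
    · rw [indicator_of_mem h0]
      by_cases h2 : t + rv z ∈ V
      · have h3 : t ∈ (fun t => t + rv z) ⁻¹' (V ∩ cell z) := ⟨h2, hc.mp h0⟩
        rw [indicator_of_mem h3]
        exact indicator_of_mem h2 _
      · have h3 : t ∉ (fun t => t + rv z) ⁻¹' (V ∩ cell z) := fun h => h2 h.1
        rw [indicator_of_notMem h3]
        exact indicator_of_notMem h2 _
    · have h3 : t ∉ (fun t => t + rv z) ⁻¹' (V ∩ cell z) := fun h => h0 (hc.mpr h.2)
      rw [indicator_of_notMem h0, indicator_of_notMem h3]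
  have hle : volume V ≤ ∫⁻ t in cell 0, ∑ z ∈ Q, f z t := by
    rw [lintegral_finsetSum _ fun z _ => hfm z]
    calc volume V ≤ volume (⋃ z ∈ Q, V ∩ cell z) := measure_mono hcover
      _ ≤ ∑ z ∈ Q, volume (V ∩ cell z) := measure_biUnion_finset_le _ _
      _ = _ := Finset.sum_congr rfl fun z _ => (hfint z).symm
  have hcell : volume (cell 0) = 1 := by
    rw [cell, Measure.volume_eq_prod, Measure.prod_prod, Real.volume_Ico, Real.volume_Ico]
    simp
  have hbound : ∀ t, ∑ z ∈ Q, f z t ≤ (Q.card : ℝ≥0∞) := by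
    intro t
    have h1 : ∀ z ∈ Q, f z t ≤ 1 := by
      intro z _
      by_cases h : t + rv z ∈ V
      · exact le_of_eq (indicator_of_mem h _)
      · have : f z t = 0 := indicator_of_notMem h _
        rw [this]; exact zero_le
    have := Finset.sum_le_card_nsmul Q (fun z => f z t) 1 h1
    simpa using this
  -- some point is at least the average
  have hex : ∃ t, volume V ≤ ∑ z ∈ Q, f z t := by
    by_contra hcon
    push Not at hcon
    have h1 : ∫⁻ t in cell 0, ∑ z ∈ Q, f z t < ∫⁻ _t in cell 0, volume V := by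
      refine lintegral_strict_mono (by rw [Ne, Measure.restrict_eq_zero, hcell]; norm_num) ?_ ?_ ?_
      · exact measurable_const.aemeasurable
      · refine ne_top_of_le_ne_top ?_ (lintegral_mono hbound)
        rw [setLIntegral_const, hcell, mul_one]
        exact ENNReal.natCast_ne_top _
      · exact ae_of_all _ hcon
    rw [setLIntegral_const, hcell, mul_one] at h1
    exact absurd (hle.trans_lt h1) (lt_irrefl _)
  obtain ⟨t, ht⟩ := hex
  refine ⟨t, Q.filter (fun z => t + rv z ∈ V), fun z hz => (Finset.mem_filter.mp hz).2, ?_⟩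
  refine ht.trans (le_of_eq ?_)
  rw [Finset.card_filter, Nat.cast_sum]
  refine Finset.sum_congr rfl fun z _ => ?_
  by_cases h : t + rv z ∈ V
  · rw [if_pos h, Nat.cast_one]; exact indicator_of_mem h _
  · rw [if_neg h, Nat.cast_zero]; exact indicator_of_notMem h _

end Pool.Agent.Hex
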