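import Pool.Agent.Hex.Lattice
set_option autoImplicit false

namespace Pool.Agent.Hex

open MeasureTheory Set
open scoped ENNReal

/-- the plane -/
abbrev E2 : Type := EuclideanSpace ℝ (Fin 2)

/-- measure preserving coordinates -/
noncomputable def co : E2 ≃ᵐ ℝ × ℝ :=
  (MeasurableEquiv.toLp 2 (Fin 2 → ℝ)).symm.trans MeasurableEquiv.finTwoArrow

theorem co_mp : MeasurePreserving co volume volume :=
  (volume_preserving_finTwoArrow ℝ).comp
    (EuclideanSpace.volume_preserving_symm_measurableEquiv_toLp (Fin 2))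

theorem co_apply (x : E2) : co x = (x 0, x 1) := rfl

theorem dist_co (x y : E2) :
    dist x y ^ 2 = ((co x).1 - (co y).1) ^ 2 + ((co x).2 - (co y).2) ^ 2 := by
  rw [EuclideanSpace.dist_eq, Real.sq_sqrt (by positivity), Fin.sum_univ_two, co_apply, co_apply,
    Real.dist_eq, Real.dist_eq, sq_abs, sq_abs]

/-- the hexagonal lattice map -/
noncomputable def R (s : ℝ) : ℝ × ℝ →ₗ[ℝ] ℝ × ℝ :=
  Matrix.toLin (Module.Basis.finTwoProd ℝ) (Module.Basis.finTwoProd ℝ)
    !![s, s / 2; 0, s * (Real.sqrt 3 / 2)]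

theorem R_apply (s : ℝ) (x : ℝ × ℝ) :
    R s x = (s * x.1 + s / 2 * x.2, 0 * x.1 + s * (Real.sqrt 3 / 2) * x.2) :=
  Matrix.toLin_finTwoProd_apply _ _ _ _ x

theorem R_det (s : ℝ) : LinearMap.det (R s) = Real.sqrt 3 / 2 * s ^ 2 := by
  rw [R, LinearMap.det_toLin, Matrix.det_fin_two_of]
  ring

theorem points {s : ℝ} (hs : 0 < s) {U : Set E2} (hU : IsCompact U) :
    ∃ P : Finset E2, (∀ x ∈ P, x ∈ U) ∧ (∀ x ∈ P, ∀ y ∈ P, x ≠ y → s ≤ dist x y) ∧
      volume U ≤ ENNReal.ofReal (Real.sqrt 3 / 2 * s ^ 2) * (P.card : ℝ≥0∞) := by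
  classical
  have hdet : LinearMap.det (R s) ≠ 0 := by rw [R_det]; positivity
  have hdpos : 0 < Real.sqrt 3 / 2 * s ^ 2 := by positivity
  obtain ⟨U', hU'⟩ : ∃ U' : Set (ℝ × ℝ), U' = co.symm ⁻¹' U := ⟨_, rfl⟩
  have hU'm : MeasurableSet U' := by rw [hU']; exact co.symm.measurable hU.measurableSet
  have hvolU' : volume U' = volume U := by
    rw [hU']
    exact (co_mp.symm co).measure_preimage_equiv U
  obtain ⟨V, hV⟩ : ∃ V : Set (ℝ × ℝ), V = R s ⁻¹' U' := ⟨_, rfl⟩
  have hcontR : Continuous (R s) := LinearMap.continuous_of_finiteDimensional _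
  have hVm : MeasurableSet V := by rw [hV]; exact hcontR.measurable hU'm
  have hvolV : volume V = ENNReal.ofReal (Real.sqrt 3 / 2 * s ^ 2)⁻¹ * volume U := by
    rw [hV, Measure.addHaar_preimage_linearMap _ hdet, R_det, hvolU', abs_of_pos (by positivity)]
  -- boundedness
  have hVb : Bornology.IsBounded V := by
    have hU'b : Bornology.IsBounded U' := by
      obtain ⟨M, hM⟩ := hU.isBounded.exists_norm_le
      refine (Metric.isBounded_iff_subset_closedBall 0).mpr ⟨M, fun x hx => ?_⟩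
      rw [mem_closedBall_zero_iff, Prod.norm_def, max_le_iff]
      rw [hU'] at hx
      have h1 := hM _ hx
      have h2 : co (co.symm x) = x := co.apply_symm_apply x
      rw [co_apply] at h2
      have h3 : x.1 = (co.symm x) 0 := (congrArg Prod.fst h2).symm
      have h4 : x.2 = (co.symm x) 1 := (congrArg Prod.snd h2).symm
      rw [h3, h4]
      exact ⟨(PiLp.norm_apply_le _ _).trans h1, (PiLp.norm_apply_le _ _).trans h1⟩
    let e := (R s).equivOfDetNeZero hdet
    have h1 : V = e.symm '' U' := by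
      rw [hV]
      ext x
      constructor
      · intro hx
        exact ⟨R s x, hx, e.symm_apply_apply x⟩
      · rintro ⟨y, hy, rfl⟩
        change R s (e.symm y) ∈ U'
        have : R s (e.symm y) = y := e.apply_symm_apply y
        rw [this]; exact hy
    rw [h1]
    exact (e.symm.toContinuousLinearEquiv.lipschitz).isBounded_image hU'b
  obtain ⟨t, B, hB, hcard⟩ := exists_translate hVm hVb
  let g : ℤ × ℤ → E2 := fun z => co.symm (R s (t + rv z))
  have hdist : ∀ z w : ℤ × ℤ, z ≠ w → s ≤ dist (g z) (g w) := by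
    intro z w hzw
    have h1 : dist (g z) (g w) ^ 2 =
        s ^ 2 * (((z.1 - w.1 : ℤ) : ℝ) ^ 2 + ((z.1 - w.1 : ℤ) : ℝ) * ((z.2 - w.2 : ℤ) : ℝ) +
          ((z.2 - w.2 : ℤ) : ℝ) ^ 2) := by
      rw [dist_co, co.apply_symm_apply, co.apply_symm_apply, R_apply, R_apply]
      have h3 : Real.sqrt 3 ^ 2 = 3 := Real.sq_sqrt (by norm_num)
      simp only [rv, Prod.fst_add, Prod.snd_add]
      push_cast
      linear_combination (s ^ 2 * ((z.2 : ℝ) - w.2) ^ 2 / 4) * h3
    have h2 : 1 ≤ (z.1 - w.1) ^ 2 + (z.1 - w.1) * (z.2 - w.2) + (z.2 - w.2) ^ 2 := by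
      by_contra hcon
      have h3 : (z.1 - w.1) ^ 2 + (z.1 - w.1) * (z.2 - w.2) + (z.2 - w.2) ^ 2 ≤ 0 := by omega
      have h4 : z.2 - w.2 = 0 := by nlinarith [sq_nonneg (2 * (z.1 - w.1) + (z.2 - w.2))]
      rw [h4] at h3
      have h5 : z.1 - w.1 = 0 := by nlinarith
      exact hzw (Prod.ext (by omega) (by omega))
    have h3 : (1 : ℝ) ≤ ((z.1 - w.1 : ℤ) : ℝ) ^ 2 + ((z.1 - w.1 : ℤ) : ℝ) * ((z.2 - w.2 : ℤ) : ℝ) +
        ((z.2 - w.2 : ℤ) : ℝ) ^ 2 := by exact_mod_cast h2
    have h4 : s ^ 2 ≤ dist (g z) (g w) ^ 2 := by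
      rw [h1]; nlinarith [sq_nonneg s]
    exact (pow_le_pow_iff_left₀ hs.le dist_nonneg two_ne_zero).mp h4
  have hinj : Function.Injective g := by
    intro z w h
    by_contra hne
    have := hdist z w hne
    rw [h, dist_self] at this
    linarith
  refine ⟨B.image g, ?_, ?_, ?_⟩
  · intro x hx
    obtain ⟨z, hz, rfl⟩ := Finset.mem_image.mp hx
    have := hB z hz
    rw [hV] at this
    have h2 : R s (t + rv z) ∈ U' := this
    rw [hU'] at h2
    exact h2
  · intro x hx y hy hxy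
    obtain ⟨z, hz, rfl⟩ := Finset.mem_image.mp hx
    obtain ⟨w, hw, rfl⟩ := Finset.mem_image.mp hy
    exact hdist z w fun h => hxy (by rw [h])
  · rw [Finset.card_image_of_injective _ hinj]
    have h1 : volume U = ENNReal.ofReal (Real.sqrt 3 / 2 * s ^ 2) * volume V := by
      rw [hvolV, ← mul_assoc, ← ENNReal.ofReal_mul hdpos.le, mul_inv_cancel₀ hdpos.ne',
        ENNReal.ofReal_one, one_mul]
    rw [h1]
    gcongr

/-- many pairwise disjoint members -/
theorem disjoint_family {n : ℕ} (K : Fin n → Set E2) {d s : ℝ} (hs : 2 * d < s) (hd : 0 ≤ d)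
    (hK : ∀ i, IsCompact (K i)) (hdiam : ∀ i, Metric.diam (K i) ≤ d) :
    ∃ S : Finset (Fin n), (S : Set (Fin n)).Pairwise (fun i j => Disjoint (K i) (K j)) ∧
      volume (⋃ i, K i) ≤ ENNReal.ofReal (Real.sqrt 3 / 2 * s ^ 2) * (S.card : ℝ≥0∞) := by
  classical
  have hU : IsCompact (⋃ i, K i) := isCompact_iUnion hK
  obtain ⟨P, hP1, hP2, hP3⟩ := points (s := s) (by linarith) hU
  have hch : ∀ x : P, ∃ i, (x : E2) ∈ K i := fun x => mem_iUnion.mp (hP1 x.1 x.2)
  choose i hi using hch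
  have hfar : ∀ x y : P, x ≠ y → ∀ z ∈ K (i x), z ∉ K (i y) := by
    intro x y hxy z hz hz'
    have h1 := hP2 x.1 x.2 y.1 y.2 (fun h => hxy (Subtype.ext h))
    have h2 := (Metric.dist_le_diam_of_mem (hK _).isBounded (hi x) hz).trans (hdiam _)
    have h3 := (Metric.dist_le_diam_of_mem (hK _).isBounded hz' (hi y)).trans (hdiam _)
    have h4 := dist_triangle (x : E2) z y
    linarith
  have hinj : Function.Injective i := by
    intro x y hxy
    by_contra hne
    exact hfar x y hne x (hi x) (by rw [← hxy]; exact hi x)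
  refine ⟨Finset.univ.image i, ?_, ?_⟩
  · intro a ha b hb hab
    rw [Finset.coe_image] at ha hb
    obtain ⟨x, _, rfl⟩ := ha
    obtain ⟨y, _, rfl⟩ := hb
    have hxy : x ≠ y := fun h => hab (by rw [h])
    exact Set.disjoint_left.mpr (hfar x y hxy)
  · rw [Finset.card_image_of_injective _ hinj, Finset.card_univ, Fintype.card_coe]
    exact hP3

theorem main {n : ℕ} (K : Fin n → Set E2) {a d : ℝ} (hd : 0 < d)
    (hK : ∀ i, IsCompact (K i)) (harea : ∀ i, (volume (K i)).toReal = a)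
    (hdiam : ∀ i, Metric.diam (K i) ≤ d) :
    ∃ S : Finset (Fin n), (S : Set (Fin n)).Pairwise (fun i j => Disjoint (K i) (K j)) ∧
      a / (2 * Real.sqrt 3 * d ^ 2) * (volume (⋃ i, K i)).toReal ≤
        (volume (⋃ i ∈ S, K i)).toReal := by
  classical
  -- a largest disjoint subfamily
  obtain ⟨S, hS, hmax⟩ : ∃ S : Finset (Fin n),
      (S : Set (Fin n)).Pairwise (fun i j => Disjoint (K i) (K j)) ∧
      ∀ T : Finset (Fin n), (T : Set (Fin n)).Pairwise (fun i j => Disjoint (K i) (K j)) →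
        T.card ≤ S.card := by
    obtain ⟨S, hS, hmax⟩ := Finset.exists_max_image
      (Finset.univ.filter (fun T : Finset (Fin n) =>
        (T : Set (Fin n)).Pairwise (fun i j => Disjoint (K i) (K j)))) Finset.card
      ⟨∅, by simp⟩
    refine ⟨S, (Finset.mem_filter.mp hS).2, fun T hT => hmax T (Finset.mem_filter.mpr
      ⟨Finset.mem_univ _, hT⟩)⟩
  have hUfin : volume (⋃ i, K i) ≠ ⊤ := (isCompact_iUnion hK).measure_lt_top.ne
  have hs : ∀ s : ℝ, 2 * d < s →
      (volume (⋃ i, K i)).toReal ≤ Real.sqrt 3 / 2 * s ^ 2 * S.card := by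
    intro s hs
    obtain ⟨T, hT, h⟩ := disjoint_family K hs hd.le hK hdiam
    have h1 := ENNReal.toReal_mono (ENNReal.mul_ne_top ENNReal.ofReal_ne_top
      (ENNReal.natCast_ne_top _)) h
    rw [ENNReal.toReal_mul, ENNReal.toReal_ofReal (by positivity), ENNReal.toReal_natCast] at h1
    refine h1.trans (mul_le_mul_of_nonneg_left ?_ (by positivity))
    exact_mod_cast hmax T hT
  have hlim : (volume (⋃ i, K i)).toReal ≤ Real.sqrt 3 / 2 * (2 * d) ^ 2 * S.card := by
    have hcont : Continuous fun s : ℝ => Real.sqrt 3 / 2 * s ^ 2 * (S.card : ℝ) := by fun_prop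
    have ht : Filter.Tendsto (fun s : ℝ => Real.sqrt 3 / 2 * s ^ 2 * (S.card : ℝ))
        (nhdsWithin (2 * d) (Ioi (2 * d))) (nhds (Real.sqrt 3 / 2 * (2 * d) ^ 2 * S.card)) :=
      (hcont.tendsto (2 * d)).mono_left nhdsWithin_le_nhds
    refine ge_of_tendsto ht ?_
    filter_upwards [self_mem_nhdsWithin] with s hs'
    exact hs s hs'
  refine ⟨S, hS, ?_⟩
  have hvol : (volume (⋃ i ∈ S, K i)).toReal = S.card * a := by
    rw [measure_biUnion_finset hS fun i _ => (hK i).measurableSet,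
      ENNReal.toReal_sum fun i _ => (hK i).measure_lt_top.ne]
    rw [Finset.sum_congr rfl fun i _ => harea i, Finset.sum_const, nsmul_eq_mul]
  rw [hvol]
  rcases S.eq_empty_or_nonempty with h0 | h0
  · rw [h0] at hlim ⊢
    rw [Finset.card_empty, Nat.cast_zero, mul_zero] at hlim
    have : (volume (⋃ i, K i)).toReal = 0 := le_antisymm hlim ENNReal.toReal_nonneg
    rw [this]; simp
  · obtain ⟨i, _⟩ := h0
    have ha : 0 ≤ a := by rw [← harea i]; exact ENNReal.toReal_nonneg
    have h1 : a / (2 * Real.sqrt 3 * d ^ 2) * (volume (⋃ i, K i)).toReal ≤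
        a / (2 * Real.sqrt 3 * d ^ 2) * (Real.sqrt 3 / 2 * (2 * d) ^ 2 * S.card) :=
      mul_le_mul_of_nonneg_left hlim (by positivity)
    refine h1.trans (le_of_eq ?_)
    field_simp

end Pool.Agent.Hex
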